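import Mathlib
import Pool.Agent.helper46.CountPartU.Final

/-!
# Countable partitions of groups with small difference sets (MP_4f48ca_al)

Every infinite group `G` of cardinality `κ` has a partition into countably many nonempty sets
`A 0, A 1, ...` such that no `A n * (A n)⁻¹` is left `κ`-large, and even no
`B n * (B n)⁻¹` with `B n = A 0 ∪ ... ∪ A n` is left `κ`-large.
-/

set_option autoImplicit false

open Pointwise

namespace Pool.Agent.Results.MP_4f48ca_al.IncreasingUnion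

universe u

/-- `X` is left `κ`-large: `G = F X` for some `F ⊆ G` with `|F| < κ`. -/
def LeftLarge {G : Type u} [Group G] (κ : Cardinal.{u}) (X : Set G) : Prop :=
  ∃ F : Set G, Cardinal.mk F < κ ∧ F * X = Set.univ

lemma LeftLarge.mono {G : Type u} [Group G] {κ : Cardinal.{u}} {X Y : Set G} (h : X ⊆ Y)
    (hX : LeftLarge κ X) : LeftLarge κ Y := by
  obtain ⟨F, hF, hU⟩ := hX
  exact ⟨F, hF, Set.eq_univ_of_univ_subset (hU ▸ Set.mul_subset_mul_left h)⟩

theorem result (G : Type u) [Group G] [Infinite G] :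
    ∃ A : ℕ → Set G,
      (⋃ n, A n) = Set.univ ∧
      Pairwise (fun i j => Disjoint (A i) (A j)) ∧
      (∀ n, (A n).Nonempty) ∧
      (∀ n, ¬ LeftLarge (Cardinal.mk G) (A n * (A n)⁻¹)) ∧
      ∀ n, ¬ LeftLarge (Cardinal.mk G) ((⋃ i ≤ n, A i) * (⋃ i ≤ n, A i)⁻¹) := by
  classical
  obtain ⟨c, hc⟩ := Pool.Agent.CountPartU.hasColouring G
  have hB : ∀ n : ℕ, ¬ LeftLarge (Cardinal.mk G) ({w | c w ≤ n} * ({w | c w ≤ n} : Set G)⁻¹) := by
    rintro n ⟨F, hF, hU⟩
    obtain ⟨v, hv⟩ := hc n F hF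
    have hvU : v ∈ F * ({w | c w ≤ n} * ({w | c w ≤ n} : Set G)⁻¹) := by
      rw [hU]; trivial
    obtain ⟨f, hf, u, hu, rfl⟩ := Set.mem_mul.1 hvU
    obtain ⟨x, hx, y, hy, rfl⟩ := Set.mem_mul.1 hu
    refine hv f hf x y⁻¹ hx hy ?_
    rw [inv_inv]
  -- infinitely many colours are used
  have hinf : (setOf fun n : ℕ => ∃ w, c w = n).Infinite := by
    intro hfin
    obtain ⟨N, hN⟩ := hfin.bddAbove
    have hall : ∀ w, c w ≤ N := fun w => hN ⟨w, rfl⟩
    refine hB N ⟨{1}, ?_, ?_⟩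
    · rw [Cardinal.mk_singleton]
      exact Cardinal.one_lt_aleph0.trans_le (Cardinal.aleph0_le_mk G)
    · refine Set.eq_univ_of_forall fun w => Set.mem_mul.2 ⟨1, rfl, w, ?_, one_mul w⟩
      exact Set.mem_mul.2 ⟨w, hall w, 1, by simpa using hall 1, mul_one w⟩
  let φ : ℕ → ℕ := Nat.nth fun n => ∃ w, c w = n
  have hφ : StrictMono φ := Nat.nth_strictMono hinf
  have hrange : Set.range φ = setOf fun n : ℕ => ∃ w, c w = n := Nat.range_nth_of_infinite hinf
  have hBn : ∀ n, (⋃ i ≤ n, {w | c w = φ i} : Set G) ⊆ {w | c w ≤ φ n} := by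
    intro n w hw
    simp only [Set.mem_iUnion] at hw
    obtain ⟨i, hi, hw⟩ := hw
    exact (show c w = φ i from hw).le.trans (hφ.monotone hi)
  have hsub : ∀ {X Y : Set G}, X ⊆ Y → X * X⁻¹ ⊆ Y * Y⁻¹ := fun h =>
    Set.mul_subset_mul h (Set.inv_subset_inv.2 h)
  refine ⟨fun n => {w | c w = φ n}, ?_, ?_, ?_, ?_, ?_⟩
  · refine Set.eq_univ_of_forall fun w => ?_
    have h : c w ∈ Set.range φ := by rw [hrange]; exact ⟨w, rfl⟩
    obtain ⟨n, hn⟩ := h
    exact Set.mem_iUnion.2 ⟨n, hn.symm⟩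
  · intro i j hij
    refine Set.disjoint_left.2 fun w hi hj => hij (hφ.injective ?_)
    exact (show c w = φ i from hi).symm.trans hj
  · intro n
    exact Nat.nth_mem_of_infinite hinf n
  · intro n h
    exact hB (φ n) (h.mono (hsub fun w hw => (show c w = φ n from hw).le))
  · intro n h
    exact hB (φ n) (h.mono (hsub (hBn n)))

end Pool.Agent.Results.MP_4f48ca_al.IncreasingUnion
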